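import Pool.Agent.FN.FinR
import Pool.Agent.FNG.MainG
import Pool.Agent.QR.MainE
import Pool.Agent.BKR.Baker

/-!
# Tuples of logarithms are generic points for short systems of equations

A *short* system: at most `s` polynomials with algebraic coefficients and at most `s` terms, of ANY
degree. `Generic s x y`: if `R (x, y, β) = 0` for a short polynomial `R` and a solution `β` of a short
system `P (x, y, β) = 0` with nonzero Jacobian with respect to `β`, then `R (x, y', β') = 0` for ALL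
solutions `(y', β')` near `(y, β)`: a relation which holds at `y` holds identically near `y`.
`Gives s S z`: `z` is a coordinate of such a solution `β` over the numbers of the set `S`.
`Free s x y`: for all sets `I`, `J` of indices: numbers `u 1, ..., u N` (`N ≤ s`) given by ALL the
numbers `x i` and the `y j`, `j ∈ J`, which are linearly independent over the algebraic closure of
`ℚ (x i : i ∈ I)`, satisfy no relation `∑ w i * u i = 0` with coefficients `w i`, not all `0`, given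
by the `x i`, `i ∈ I`, and the `y j`, `j ∉ J`.

* For all complex numbers `x j`, `t i` the numbers `y i = t i + log (a i)` have `Free s x y` and
  `Generic s x y` for all but `C (log log X) ^ C / log X * N₁ ⋯ N_l` of the tuples `1 ≤ a i ≤ N i`.
* Systems of logarithms or elliptic logarithms of large finite rank: the exceptional coefficients
  lie on a hypersurface of bounded degree.
-/

namespace Pool.Agent.Results.MP_c9768e_nt.Formulas

/-- `z` is a coordinate of a zero, with nonzero Jacobian, of `m ≤ s` polynomials with algebraic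
coefficients in the numbers of `S` and `m` unknowns, with at most `s` terms each -/
def Gives (s : ℕ) (S : Set ℂ) (z : ℂ) : Prop :=
  ∃ (m : ℕ) (β : Fin m → ℂ) (P : Fin m → MvPolynomial (S ⊕ Fin m) (algebraicClosure ℚ ℂ)),
    m ≤ s ∧ (∀ i, (P i).support.card ≤ s) ∧
    (∀ i, MvPolynomial.aeval (Sum.elim (fun x : S => (x : ℂ)) β) (P i) = 0) ∧
      (Matrix.of fun i k => MvPolynomial.aeval (Sum.elim (fun x : S => (x : ℂ)) β)
        (MvPolynomial.pderiv (Sum.inr k) (P i))).det ≠ 0 ∧ ∃ k, β k = z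

/-- the numbers `u i` are linearly independent over the algebraic closure of `ℚ (S)` -/
def Indep (S : Set ℂ) {N : ℕ} (u : Fin N → ℂ) : Prop :=
  ∀ c : Fin N → ℂ, (∀ i, IsAlgebraic (Algebra.adjoin ℚ S) (c i)) → ∑ i, c i * u i = 0 → c = 0

/-- independent numbers given by all the `x` and some of the `y` satisfy no linear relation whose
coefficients are given by some of the `x` and the OTHER `y` -/
def Free (s : ℕ) {k l : ℕ} (x : Fin k → ℂ) (y : Fin l → ℂ) : Prop :=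
  ∀ (I : Set (Fin k)) (J : Set (Fin l)) (N : ℕ) (u w : Fin N → ℂ), N ≤ s →
    (∀ i, Gives s (Set.range x ∪ y '' J) (u i)) → (∀ i, Gives s (x '' I ∪ y '' Jᶜ) (w i)) →
      Indep (x '' I) u → ∑ i, w i * u i = 0 → w = 0

/-- the value of a polynomial with algebraic coefficients at `(x, y, β)` -/
noncomputable def val {k l m : ℕ} (x : Fin k → ℂ) (y : Fin l → ℂ) (β : Fin m → ℂ)
    (R : MvPolynomial (Fin k ⊕ (Fin l ⊕ Fin m)) (algebraicClosure ℚ ℂ)) : ℂ :=
  MvPolynomial.aeval (Sum.elim x (Sum.elim y β)) R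

/-- the Jacobian matrix of the system `P` at `(x, y, β)`, with respect to `β` -/
noncomputable def jac {k l m : ℕ} (x : Fin k → ℂ) (y : Fin l → ℂ) (β : Fin m → ℂ)
    (P : Fin m → MvPolynomial (Fin k ⊕ (Fin l ⊕ Fin m)) (algebraicClosure ℚ ℂ)) :
    Matrix (Fin m) (Fin m) ℂ :=
  Matrix.of fun i i' => val x y β (MvPolynomial.pderiv (Sum.inr (Sum.inr i')) (P i))

/-- a relation `R` with at most `s` terms between `x`, `y` and a solution `β` of a system of at most
`s` polynomials with at most `s` terms, with nonzero Jacobian with respect to `β`, holds for all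
solutions of the system near `(y, β)` -/
def Generic (s : ℕ) {k l : ℕ} (x : Fin k → ℂ) (y : Fin l → ℂ) : Prop :=
  ∀ (m : ℕ) (P : Fin m → MvPolynomial (Fin k ⊕ (Fin l ⊕ Fin m)) (algebraicClosure ℚ ℂ))
    (R : MvPolynomial (Fin k ⊕ (Fin l ⊕ Fin m)) (algebraicClosure ℚ ℂ)) (β : Fin m → ℂ), m ≤ s →
    (∀ i, (P i).support.card ≤ s) → R.support.card ≤ s → (∀ i, val x y β (P i) = 0) →
    (jac x y β P).det ≠ 0 → val x y β R = 0 →
      ∀ᶠ q : (Fin l → ℂ) × (Fin m → ℂ) in nhds (y, β),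
        (∀ i, val x q.1 q.2 (P i) = 0) → val x q.1 q.2 R = 0

/-- `F = ℚ` and all `exp (t i)` are algebraic; or, for a lattice `Ω = ℤ ω₁ + ℤ ω₂` with algebraic
invariants `g₂, g₃`, `F` is the field of the `c` with `c Ω ⊂ ℚ Ω`, and each `t i` is in `Ω` or
`℘ (t i)` is algebraic. -/
def IsLogs (F : Subfield ℂ) {r : ℕ} (t : Fin r → ℂ) : Prop :=
  ((∀ c : ℂ, c ∈ F ↔ ∃ q : ℚ, c = q) ∧ ∀ i, IsAlgebraic ℚ (Complex.exp (t i))) ∨
    ∃ ω₁ ω₂ : ℂ, (ω₂ / ω₁).im ≠ 0 ∧
      IsAlgebraic ℚ (60 * ∑' q : ℤ × ℤ,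
        if q = 0 then (0 : ℂ) else 1 / ((q.1 : ℂ) * ω₁ + (q.2 : ℂ) * ω₂) ^ 4) ∧
      IsAlgebraic ℚ (140 * ∑' q : ℤ × ℤ,
        if q = 0 then (0 : ℂ) else 1 / ((q.1 : ℂ) * ω₁ + (q.2 : ℂ) * ω₂) ^ 6) ∧
      (∀ c : ℂ, c ∈ F ↔ ∃ a b a' b' : ℚ,
        c * ω₁ = (a : ℂ) * ω₁ + (b : ℂ) * ω₂ ∧ c * ω₂ = (a' : ℂ) * ω₁ + (b' : ℂ) * ω₂) ∧
      ∀ i, (∃ a b : ℤ, t i = (a : ℂ) * ω₁ + (b : ℂ) * ω₂) ∨
        IsAlgebraic ℚ (1 / t i ^ 2 + ∑' q : ℤ × ℤ,
          if q = 0 then (0 : ℂ) else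
            (1 / (t i - ((q.1 : ℂ) * ω₁ + (q.2 : ℂ) * ω₂)) ^ 2
              - 1 / ((q.1 : ℂ) * ω₁ + (q.2 : ℂ) * ω₂) ^ 2))

private theorem free {F : Subfield ℂ} {r : ℕ} {t : Fin r → ℂ} (h : IsLogs F t) :
    Pool.Agent.QR.Free (algebraicClosure ℚ ℂ) (Submodule.span F (Set.range t)) := by
  rcases h with ⟨hF, he⟩ | ⟨ω₁, ω₂, him, hg2, hg3, hF, he⟩
  · exact Pool.Agent.QR.free_logF (fun _ _ t ht he b b0 hb hb0 h =>
      Pool.Agent.BKR.baker t ht he b b0 hb hb0 h) F hF he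
  · obtain ⟨L, rfl, rfl⟩ := Pool.Agent.ZCM.exists_periodPair ω₁ ω₂ him
    have hg2' : IsAlgebraic ℚ L.g₂ := by rw [Pool.Agent.ZCM.g₂_eq_tsum]; exact hg2
    have hg3' : IsAlgebraic ℚ L.g₃ := by rw [Pool.Agent.ZCM.g₃_eq_tsum]; exact hg3
    have hF' : ∀ c, c ∈ F ↔ c ∈ Pool.Agent.EBM.EndF L := fun c =>
      (hF c).trans (Pool.Agent.QR.endF_iff L c).symm
    have hp : ∀ i, t i ∈ Pool.Agent.EBM.ELog L := fun i => by
      rcases he i with ⟨a, b, hab⟩ | h
      · exact Or.inl (PeriodPair.mem_lattice.2 ⟨a, b, hab.symm⟩)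
      · exact Or.inr (by rw [Pool.Agent.CHU.P_eq_tsum]; exact h)
    exact Pool.Agent.QR.free_ell L hg2' hg3' F hF' hp

private theorem li {F : Subfield ℂ} {r : ℕ} {v : Fin r → ℂ} (h : IsLogs F v)
    (hv : LinearIndependent F v) : LinearIndependent (algebraicClosure ℚ ℂ) v := by
  rw [Fintype.linearIndependent_iff]
  intro c hc
  refine (free h (Fin r) v (fun i => Submodule.subset_span ⟨i, rfl⟩) hv 0 c ?_).2
  rw [map_zero, zero_add, ← hc]
  exact Finset.sum_congr rfl fun i _ => (Algebra.smul_def _ _).symm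

private theorem Indep.li {S : Set ℂ} {N : ℕ} {u : Fin N → ℂ} (h : Indep S u) :
    LinearIndependent (Pool.Agent.FNR.aclF Pool.Agent.FN.KA S) u := by
  rw [Fintype.linearIndependent_iff]
  intro c hc
  have h1 := h (fun i => (c i : ℂ)) (fun i => ?_) hc
  · exact fun i => Subtype.ext (congrFun h1 i)
  · have h2 : (c i : ℂ) ∈ Pool.Agent.FNR.acl Pool.Agent.FN.KA S :=
      Pool.Agent.FNR.mem_aclF.1 (c i).2
    have h3 : IsAlgebraic (Algebra.adjoin Pool.Agent.FN.KA S) (c i : ℂ) := h2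
    refine Pool.Agent.FNR.acl_of (K := ℚ) Subtype.val_injective (fun a => ?_) h3
    have ha := a.2
    change (a : ℂ) ∈ _
    generalize (a : ℂ) = c at ha
    rw [← Pool.Agent.FNR.mem_aclF]
    induction ha using Algebra.adjoin_induction with
    | mem c hc => exact Pool.Agent.FNR.mem_aclF.2 (Pool.Agent.FNR.subset_acl _ hc)
    | algebraMap r =>
      have h4 : IsAlgebraic ℚ (r : ℂ) := mem_algebraicClosure_iff.1 r.2
      have h5 : (r : ℂ) ∈ Pool.Agent.FNR.acl ℚ S := h4.extendScalars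
        (algebraMap ℚ (Algebra.adjoin ℚ S)).injective
      exact Pool.Agent.FNR.mem_aclF.2 h5
    | add x y _ _ hx hy => exact (Pool.Agent.FNR.aclF ℚ S).add_mem hx hy
    | mul x y _ _ hx hy => exact (Pool.Agent.FNR.aclF ℚ S).mul_mem hx hy

private theorem dep {s k l : ℕ} {x : Fin k → ℂ} {y : Fin l → ℂ}
    (h : ¬ (Free s x y ∧ Generic s x y)) :
    Pool.Agent.FNY.DepY s x y ∨ ¬ Pool.Agent.FNG.GenY Pool.Agent.FN.KA s x y := by
  by_cases hG : Generic s x y
  · left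
    have h' : ¬ Free s x y := fun hF => h ⟨hF, hG⟩
    unfold Free at h'
    push Not at h'
    obtain ⟨I, J, N, u, w, hN, hu, hw, hi, h0, hw0⟩ := h'
    exact ⟨I, J, N, u, w, hN, hu, hw, hi.li, h0, hw0⟩
  · exact Or.inr hG

theorem result :
    (∀ k l s : ℕ, ∃ C : ℕ, ∀ (x : Fin k → ℂ) (t : Fin l → ℂ) (X : ℕ), 16 ≤ X →
      ∀ N : Fin l → ℕ, (∀ i, X ≤ N i) → ({a : Fin l → ℕ | (∀ i, 1 ≤ a i ∧ a i ≤ N i) ∧
        ¬ ((Free s x fun i => t i + ((Real.log (a i : ℝ) : ℝ) : ℂ)) ∧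
          Generic s x fun i => t i + ((Real.log (a i : ℝ) : ℝ) : ℂ))}.ncard : ℝ) ≤
            C * Real.log (Real.log X) ^ C / Real.log X * ∏ i, (N i : ℝ)) ∧
    ∀ k l s : ℕ, ∃ E : ℕ, ∀ (x : Fin k → ℂ) (t : Fin l → ℂ) (r : ℕ), E ≤ r →
      ∀ v : Fin l → Fin r → ℂ,
        (∀ i, ∃ F : Subfield ℂ, IsLogs F (v i) ∧ LinearIndependent F (v i)) →
          ∃ Q : MvPolynomial (Fin l × Fin r) (algebraicClosure ℚ ℂ), Q ≠ 0 ∧ Q.totalDegree ≤ E ∧
            ∀ m : Fin l × Fin r → algebraicClosure ℚ ℂ,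
              ((Free s x fun i => t i + ∑ j, m (i, j) • v i j) ∧
                Generic s x fun i => t i + ∑ j, m (i, j) • v i j) ∨
                  MvPolynomial.eval m Q = 0 := by
  refine ⟨fun k l s => ?_, fun k l s => ?_⟩
  · obtain ⟨E, r, hk⟩ := Pool.Agent.FNG.keyG k l s
    obtain ⟨C, hC⟩ := Pool.Agent.FNR.dens E r l
    refine ⟨C, fun x t X hX N hN => le_trans (Nat.cast_le.2 (Set.ncard_le_ncard ?_ ?_))
      (hC (fun y => Pool.Agent.FNY.DepY s x y ∨ ¬ Pool.Agent.FNG.GenY Pool.Agent.FN.KA s x y)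
        (hk x) t X hX N hN)⟩
    · rintro a ⟨ha, hb⟩
      exact ⟨ha, dep hb⟩
    · refine (Fintype.piFinset fun i => Finset.Icc 1 (N i)).finite_toSet.subset fun a ha => ?_
      rw [Finset.mem_coe, Fintype.mem_piFinset]
      exact fun i => Finset.mem_Icc.2 (ha.1 i)
  · obtain ⟨E, r, h⟩ := Pool.Agent.FNG.keyG k l s
    refine ⟨max E r, fun x t R hR v hv => ?_⟩
    obtain ⟨δ, hδ, Ψ, h0, hE, hr, hΨ⟩ := h x
    obtain ⟨Q, hQ, hQE, hQm⟩ := Pool.Agent.FN.finR_core hδ Ψ h0 hE hr t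
      ((le_max_right E r).trans hR) v fun i => by
        obtain ⟨F, h1, h2⟩ := hv i
        exact li h1 h2
    refine ⟨Q, hQ, hQE.trans (le_max_left _ _), fun m => ?_⟩
    by_cases hm : (Free s x fun i => t i + ∑ j, m (i, j) • v i j) ∧
        Generic s x fun i => t i + ∑ j, m (i, j) • v i j
    · exact Or.inl hm
    · exact Or.inr (hQm m (hΨ _ (dep hm)))

end Pool.Agent.Results.MP_c9768e_nt.Formulas
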