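import Pool.Agent.QGE.FinE
import Pool.Agent.QNH.FreeH
import Pool.Agent.QR.MainE
import Pool.Agent.BKR.Baker

/-!
# Almost all logarithms satisfy no relation with ANY further number of a given space

A system of (elliptic) logarithms (`LogSys`) consists of linearly independent elements of
`F + F t₁ + ⋯ + F t_s`, where `F = ℚ` and the `t_i` are logarithms of algebraic numbers, or `F` is
the field of multiplications of a lattice with algebraic invariants and the `t_i` are elliptic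
logarithms (`IsLogs`).

* `k` numbers: let `x_i = ∑ m_(i,j) v_(i,j)`, `i ≤ k`, where each row `v_(i,1), …, v_(i,r)` is such
  a system (the lattice may depend on `i`), let `W'` be ANY space over the algebraic numbers of
  dimension at most `b` and `w ≠ 0` any number, `b + 3 c + 3 binom(k + 1 + d, d) ≤ 2 r + 1`. The
  algebraic matrices `m` for which `w, x₁, …, x_k, y` satisfy a nonzero homogeneous relation of
  degree `d`, for some `y` in `W'` which is not a combination of `w, x₁, …, x_k`, lie in an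
  algebraic set of dimension less than `k r - c`.
* two numbers: let `w, v₁, …, v_r` be such a system and `W'` the span of the `v_j`, or any space of
  dimension less than `r` which does not contain `w`. For all `m` outside a hypersurface, with
  `x = ∑ m_j v_j`, every `y` in `W'` which is not a combination of `w, x` has the property that
  `y / w` has degree at least `r` over the field of the rational functions of `x / w` with
  algebraic coefficients.
-/

namespace Pool.Agent.Results.MP_c9768e_nt.GenericTuples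

open Module Submodule

/-- `F = ℚ` and all `exp (t i)` are algebraic; or, for a lattice `Ω = ℤ ω₁ + ℤ ω₂` with algebraic
invariants `g₂, g₃`, `F` is the field of the `c` with `c Ω ⊂ ℚ Ω`, and each `t i` is in `Ω` or
`℘ (t i)` is algebraic. -/
def IsLogs (F : Subfield ℂ) {r : ℕ} (t : Fin r → ℂ) : Prop :=
  ((∀ c : ℂ, c ∈ F ↔ ∃ q : ℚ, c = q) ∧ ∀ i, IsAlgebraic ℚ (Complex.exp (t i))) ∨
    ∃ ω₁ ω₂ : ℂ, (ω₂ / ω₁).im ≠ 0 ∧
      IsAlgebraic ℚ (60 * ∑' q : ℤ × ℤ,
        if q = 0 then (0 : ℂ) else 1 / ((q.1 : ℂ) * ω₁ + (q.2 : ℂ) * ω₂) ^ 4) ∧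
      IsAlgebraic ℚ (140 * ∑' q : ℤ × ℤ,
        if q = 0 then (0 : ℂ) else 1 / ((q.1 : ℂ) * ω₁ + (q.2 : ℂ) * ω₂) ^ 6) ∧
      (∀ c : ℂ, c ∈ F ↔ ∃ a b a' b' : ℚ,
        c * ω₁ = (a : ℂ) * ω₁ + (b : ℂ) * ω₂ ∧ c * ω₂ = (a' : ℂ) * ω₁ + (b' : ℂ) * ω₂) ∧
      ∀ i, (∃ a b : ℤ, t i = (a : ℂ) * ω₁ + (b : ℂ) * ω₂) ∨
        IsAlgebraic ℚ (1 / t i ^ 2 + ∑' q : ℤ × ℤ,
          if q = 0 then (0 : ℂ) else
            (1 / (t i - ((q.1 : ℂ) * ω₁ + (q.2 : ℂ) * ω₂)) ^ 2
              - 1 / ((q.1 : ℂ) * ω₁ + (q.2 : ℂ) * ω₂) ^ 2))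

/-- The space `F + F t₁ + ⋯ + F t_r`. -/
noncomputable def W (F : Subfield ℂ) {r : ℕ} (t : Fin r → ℂ) : Submodule F ℂ :=
  span F (insert 1 (Set.range t))

/-- A system of (elliptic) logarithms: the `v_i` are elements of `F + F t₁ + ⋯ + F t_s`, linearly
independent over `F`, for some `F` and some `t` as in `IsLogs`. -/
def LogSys {n : ℕ} (v : Fin n → ℂ) : Prop :=
  ∃ (F : Subfield ℂ) (s : ℕ) (t : Fin s → ℂ), IsLogs F t ∧ (∀ i, v i ∈ W F t) ∧
    LinearIndependent F v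

/-- The `m` for which `w`, the `k` numbers `x_i = ∑ m_(i,j) v_(i,j)` and `y` satisfy a nonzero
homogeneous relation of degree `d` with algebraic coefficients, for some `y` in `W'` which is not a
combination of `w, x₁, …, x_k`. -/
def Exc (d : ℕ) {k r : ℕ} (w : ℂ) (v : Fin k → Fin r → ℂ)
    (W' : Submodule (algebraicClosure ℚ ℂ) ℂ) : Set (Fin k × Fin r → algebraicClosure ℚ ℂ) :=
  {m | ∃ y ∈ W', y ∉ span (algebraicClosure ℚ ℂ)
      (insert w (Set.range fun i => ∑ j, m (i, j) • v i j)) ∧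
    ∃ P : MvPolynomial (Fin (k + 2)) ℂ, P ≠ 0 ∧ P.IsHomogeneous d ∧
      (∀ e, IsAlgebraic ℚ (P.coeff e)) ∧
      MvPolynomial.eval (Fin.cons w
        (Fin.cons y fun i => ∑ j, m (i, j) • v i j : Fin (k + 1) → ℂ) :
          Fin (k + 1 + 1) → ℂ) P = 0}

/-- `E` lies in an algebraic set of dimension less than `k r - c`: any set `A` of at least
`k r - c` of the coordinates satisfies a nonzero equation of degree at most `N` on `E`; and for
every finite set `S` of algebraic numbers at most `N |S| ^ (k r - c - 1)` points of `E` have all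
coordinates in `S`. -/
def Thin (N c : ℕ) {k r : ℕ} (E : Set (Fin k × Fin r → algebraicClosure ℚ ℂ)) : Prop :=
  (∀ A : Finset (Fin k × Fin r), k * r ≤ A.card + c →
    ∃ Φ : MvPolynomial A (algebraicClosure ℚ ℂ), Φ ≠ 0 ∧ Φ.totalDegree ≤ N ∧
      ∀ m ∈ E, MvPolynomial.eval (fun a : A => m a) Φ = 0) ∧
  ∀ S : Finset (algebraicClosure ℚ ℂ),
    {m | m ∈ E ∧ ∀ q, m q ∈ S}.ncard ≤ N * S.card ^ (k * r - c - 1)

private theorem facts {F : Subfield ℂ} {r : ℕ} {t : Fin r → ℂ} (h : IsLogs F t) :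
    (∀ c ∈ F, IsAlgebraic ℚ c) ∧
      Pool.Agent.QNH.Free0 (algebraicClosure ℚ ℂ) (W F t) := by
  have key : (∀ c ∈ F, IsAlgebraic ℚ c) ∧
      Pool.Agent.QR.Free (algebraicClosure ℚ ℂ) (span F (Set.range t)) := by
    rcases h with ⟨hF, he⟩ | ⟨ω₁, ω₂, him, hg2, hg3, hF, he⟩
    · exact ⟨fun c hc => by
        obtain ⟨q, rfl⟩ := (hF c).1 hc
        exact isAlgebraic_ratCast ℚ q,
        Pool.Agent.QR.free_logF (fun _ _ t ht he b b0 hb hb0 h =>
          Pool.Agent.BKR.baker t ht he b b0 hb hb0 h) F hF he⟩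
    · obtain ⟨L, rfl, rfl⟩ := Pool.Agent.ZCM.exists_periodPair ω₁ ω₂ him
      have hg2' : IsAlgebraic ℚ L.g₂ := by rw [Pool.Agent.ZCM.g₂_eq_tsum]; exact hg2
      have hg3' : IsAlgebraic ℚ L.g₃ := by rw [Pool.Agent.ZCM.g₃_eq_tsum]; exact hg3
      have hF' : ∀ c, c ∈ F ↔ c ∈ Pool.Agent.EBM.EndF L := fun c =>
        (hF c).trans (Pool.Agent.QR.endF_iff L c).symm
      have hp : ∀ i, t i ∈ Pool.Agent.EBM.ELog L := fun i => by
        rcases he i with ⟨a, b, hab⟩ | h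
        · exact Or.inl (PeriodPair.mem_lattice.2 ⟨a, b, hab.symm⟩)
        · exact Or.inr (by rw [Pool.Agent.CHU.P_eq_tsum]; exact h)
      exact ⟨fun c hc => Pool.Agent.EBM.endF_alg L ((hF' c).1 hc),
        Pool.Agent.QR.free_ell L hg2' hg3' F hF' hp⟩
  refine ⟨key.1, ?_⟩
  have hs : Pool.Agent.QR.Sub F (algebraicClosure ℚ ℂ) ℂ := fun c =>
    ⟨⟨c, mem_algebraicClosure_iff.2 (key.1 c c.2)⟩, rfl⟩
  have h1 := Pool.Agent.QNH.free0_of_free hs key.2
  have h2 : W F t = span F {(1 : ℂ)} ⊔ span F (Set.range t) := by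
    rw [W, Set.insert_eq, span_union]
  rw [h2]
  exact h1

private theorem li {n : ℕ} {v : Fin n → ℂ} (h : LogSys v) :
    LinearIndependent (algebraicClosure ℚ ℂ) v := by
  obtain ⟨F, s, t, ht, hv, hi⟩ := h
  rw [Fintype.linearIndependent_iff]
  exact (facts ht).2 (Fin n) v hv hi

theorem result :
    (∀ k r b c d : ℕ, 0 < k → b + 3 * c + 3 * (k + 1 + d).choose d ≤ 2 * r + 1 →
      ∃ N : ℕ, ∀ v : Fin k → Fin r → ℂ, (∀ i, LogSys (v i)) →
        ∀ W' : Submodule (algebraicClosure ℚ ℂ) ℂ,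
          FiniteDimensional (algebraicClosure ℚ ℂ) W' →
          finrank (algebraicClosure ℚ ℂ) W' ≤ b → ∀ w : ℂ, w ≠ 0 → Thin N c (Exc d w v W')) ∧
    ∀ (r : ℕ) (w : ℂ) (v : Fin r → ℂ), LogSys (Fin.cons w v : Fin (r + 1) → ℂ) →
      ∀ W' : Submodule (algebraicClosure ℚ ℂ) ℂ, FiniteDimensional (algebraicClosure ℚ ℂ) W' →
        (finrank (algebraicClosure ℚ ℂ) W' < r ∧ w ∉ W' ∨
          W' = span (algebraicClosure ℚ ℂ) (Set.range v)) →
        ∃ Φ : MvPolynomial (Fin r) (algebraicClosure ℚ ℂ), Φ ≠ 0 ∧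
          ∀ m : Fin r → algebraicClosure ℚ ℂ, MvPolynomial.eval m Φ ≠ 0 → ∀ y ∈ W',
            y ∉ span (algebraicClosure ℚ ℂ) {w, ∑ j, m j • v j} →
            ∀ P : MvPolynomial (Fin 2) (algebraicClosure ℚ ℂ), P ≠ 0 → P.degreeOf 0 < r →
              MvPolynomial.aeval ![y / w, (∑ j, m j • v j) / w] P ≠ 0 := by
  refine ⟨fun k r b c d hk hN => ?_, fun r w v hv W' hfd hW' =>
    Pool.Agent.QGE.theoremE (li hv) W' hfd hW'⟩
  obtain ⟨N, h⟩ := Pool.Agent.QGT.theoremT (k := k) (r := r) (b := b) (c := c) (d := d) hk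
    (by omega)
  exact ⟨N, fun v hv W' hfd hb w hw => h v (fun i => li (hv i)) W' hfd hb w hw⟩

end Pool.Agent.Results.MP_c9768e_nt.GenericTuples
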