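import Pool.Agent.DI.End
import Pool.Agent.DI.Deg
import Pool.Agent.DIk.End
import Pool.Agent.DIk.Logs
import Pool.Agent.DIk.LinE

/-!
# Numbers which are linearly independent over the algebraic numbers remain so, for almost all
positive integers `a`, over every extension of bounded degree of the field generated by `log a`;
relations between powers of two logarithms of integers which have bounded degree in one of them
-/

namespace Pool.Agent.Results.MP_c9768e_nt.UnboundedDegree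

open Pool.Agent.DI (RX Bd)

theorem pow_exp_mono (m : ℕ) {y z : ℝ} (hy : 0 < y) (hm : (m : ℝ) ≤ y) (hyz : y ≤ z) :
    z ^ m * Real.exp (-z) ≤ y ^ m * Real.exp (-y) := by
  have h1 : z / y ≤ Real.exp ((z - y) / y) := by
    have h := Real.add_one_le_exp ((z - y) / y)
    have e : (z - y) / y + 1 = z / y := by field_simp; ring
    rwa [e] at h
  have h2 : (z / y) ^ m ≤ Real.exp (z - y) := by
    calc (z / y) ^ m ≤ Real.exp ((z - y) / y) ^ m :=
          pow_le_pow_left₀ (div_nonneg (hy.le.trans hyz) hy.le) h1 m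
      _ = Real.exp (m * ((z - y) / y)) := (Real.exp_nat_mul _ _).symm
      _ ≤ Real.exp (z - y) := by
          refine Real.exp_le_exp.2 ?_
          rw [mul_div_assoc', div_le_iff₀ hy, mul_comm]
          exact mul_le_mul_of_nonneg_left hm (by linarith)
  have h3 : z ^ m = y ^ m * (z / y) ^ m := by
    rw [← mul_pow, mul_div_cancel₀ _ hy.ne']
  rw [h3]
  calc y ^ m * (z / y) ^ m * Real.exp (-z) ≤ y ^ m * Real.exp (z - y) * Real.exp (-z) := by
        gcongr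
    _ = y ^ m * Real.exp (-y) := by
        rw [mul_assoc, ← Real.exp_add]
        ring_nf

theorem logs {X : ℕ} (hX : 16 ≤ X) : 1 < Real.log X ∧ 1 ≤ Real.log (Real.log X) := by
  have hX16 : (16 : ℝ) ≤ X := by exact_mod_cast hX
  have h16 : Real.exp 1 ≤ Real.log X := by
    have h1 : Real.log 16 ≤ Real.log X := Real.log_le_log (by norm_num) hX16
    have h2 : Real.log 16 = 4 * Real.log 2 := by
      rw [show (16 : ℝ) = 2 ^ 4 by norm_num, Real.log_pow]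
      norm_num
    have h3 := Real.log_two_gt_d9
    have h4 := Real.exp_one_lt_d9
    linarith
  have hlog : 1 < Real.log X := lt_of_lt_of_le (by linarith [Real.exp_one_gt_d9]) h16
  refine ⟨hlog, ?_⟩
  rw [Real.le_log_iff_exp_le (by linarith)]
  exact h16

/-- the bound `C (log log X) ^ C / log X` -/
noncomputable def gb (C X : ℕ) : ℝ := C * Real.log (Real.log X) ^ C / Real.log X

theorem gb_nonneg {C X : ℕ} (hX : 16 ≤ X) : 0 ≤ gb C X := by
  obtain ⟨h1, h2⟩ := logs hX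
  unfold gb
  positivity

theorem gb_le {C X : ℕ} (hX : 16 ≤ X) {D : ℝ} {m : ℕ} (hD : D ≤ C) (hm : m ≤ C) :
    D * Real.log (Real.log X) ^ m / Real.log X ≤ gb C X := by
  obtain ⟨h1, h2⟩ := logs hX
  unfold gb
  have h3 : Real.log (Real.log X) ^ m ≤ Real.log (Real.log X) ^ C := pow_le_pow_right₀ h2 hm
  have h4 : (0 : ℝ) ≤ C := Nat.cast_nonneg C
  have h5 : (0 : ℝ) ≤ Real.log (Real.log X) ^ m := by positivity
  refine div_le_div_of_nonneg_right ?_ (by linarith)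
  calc D * Real.log (Real.log X) ^ m ≤ C * Real.log (Real.log X) ^ m :=
        mul_le_mul_of_nonneg_right hD h5
    _ ≤ C * Real.log (Real.log X) ^ C := mul_le_mul_of_nonneg_left h3 h4

theorem gb_mono {C D X : ℕ} (hX : 16 ≤ X) (h : C ≤ D) : gb C X ≤ gb D X :=
  gb_le hX (by exact_mod_cast h) h

theorem gb_add {C D X : ℕ} (hX : 16 ≤ X) : gb C X + gb D X ≤ gb (C + D) X := by
  obtain ⟨h1, h2⟩ := logs hX
  have h3 : Real.log (Real.log X) ^ C ≤ Real.log (Real.log X) ^ (C + D) :=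
    pow_le_pow_right₀ h2 (Nat.le_add_right _ _)
  have h4 : Real.log (Real.log X) ^ D ≤ Real.log (Real.log X) ^ (C + D) :=
    pow_le_pow_right₀ h2 (Nat.le_add_left _ _)
  unfold gb
  rw [← add_div]
  refine div_le_div_of_nonneg_right ?_ (by linarith)
  push_cast
  rw [add_mul]
  exact add_le_add (mul_le_mul_of_nonneg_left h3 (Nat.cast_nonneg _))
    (mul_le_mul_of_nonneg_left h4 (Nat.cast_nonneg _))

theorem gb_inv {X : ℕ} (hX : 16 ≤ X) (n : ℕ) : (n : ℝ) / X ≤ gb n X := by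
  obtain ⟨h1, h2⟩ := logs hX
  have hXp : (0 : ℝ) < X := by
    have : (16 : ℝ) ≤ X := by exact_mod_cast hX
    linarith
  have h5 : Real.log X ≤ X := by
    have := Real.log_le_sub_one_of_pos hXp
    linarith
  have h6 : (1 : ℝ) ≤ Real.log (Real.log X) ^ n := one_le_pow₀ h2
  unfold gb
  calc (n : ℝ) / X ≤ n / Real.log X := by gcongr
    _ ≤ n * Real.log (Real.log X) ^ n / Real.log X := by
        gcongr
        exact le_mul_of_one_le_right (Nat.cast_nonneg n) h6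

theorem gb_small (X1 : ℕ) : ∃ C : ℕ, ∀ X : ℕ, 16 ≤ X → X < X1 → 1 ≤ gb C X := by
  obtain ⟨C, hC⟩ := exists_nat_ge (Real.log X1)
  refine ⟨C, fun X hX hXX => ?_⟩
  obtain ⟨h1, h2⟩ := logs hX
  have hXp : (0 : ℝ) < X := by
    have : (16 : ℝ) ≤ X := by exact_mod_cast hX
    linarith
  have h3 : Real.log X ≤ C := (Real.log_le_log hXp (by exact_mod_cast hXX.le)).trans hC
  have h4 : 1 ≤ Real.log (Real.log X) ^ C := one_le_pow₀ h2
  unfold gb
  rw [le_div_iff₀ (by linarith)]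
  nlinarith [Nat.cast_nonneg (α := ℝ) C]

theorem gb_exp (C1 : ℝ) (hC1 : 0 ≤ C1) (m X0 : ℕ) : ∃ C X1 : ℕ, X0 ≤ X1 ∧ ∀ X : ℕ, 16 ≤ X →
    X1 ≤ X → ∀ N : ℕ, X ≤ N →
      C1 * Real.log (Real.log N) ^ m * Real.exp (-Real.log (Real.log N)) ≤ gb C X := by
  obtain ⟨X1, hX1⟩ := exists_nat_ge (max (X0 : ℝ) (Real.exp (Real.exp m)))
  have hX10 : X0 ≤ X1 := by
    have : (X0 : ℝ) ≤ X1 := (le_max_left _ _).trans hX1
    exact_mod_cast this
  have hX1m : Real.exp (Real.exp m) ≤ X1 := (le_max_right _ _).trans hX1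
  obtain ⟨C, hC⟩ := exists_nat_ge (max C1 m)
  have hCC : C1 ≤ C := (le_max_left _ _).trans hC
  have hCm : m ≤ C := by
    have : (m : ℝ) ≤ C := (le_max_right _ _).trans hC
    exact_mod_cast this
  refine ⟨C, X1, hX10, fun X hX hXX N hN => ?_⟩
  obtain ⟨hlog, hy⟩ := logs hX
  have hXp : (0 : ℝ) < X := by
    have : (16 : ℝ) ≤ X := by exact_mod_cast hX
    linarith
  have hm : (m : ℝ) ≤ Real.log (Real.log X) := by
    have h1 : Real.exp (Real.exp m) ≤ X := hX1m.trans (by exact_mod_cast hXX)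
    rw [Real.le_log_iff_exp_le (by linarith), Real.le_log_iff_exp_le hXp]
    exact h1
  have h1 : Real.log X ≤ Real.log N := Real.log_le_log hXp (by exact_mod_cast hN)
  have h2 : Real.log (Real.log X) ≤ Real.log (Real.log N) := Real.log_le_log (by linarith) h1
  have h3 := pow_exp_mono m (by linarith) hm h2
  rw [Real.exp_neg (Real.log (Real.log X)), Real.exp_log (by linarith), ← div_eq_mul_inv] at h3
  rw [mul_assoc]
  refine (mul_le_mul_of_nonneg_left h3 hC1).trans ?_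
  rw [← mul_div_assoc]
  exact gb_le hX hCC hCm

/-- counting pairs by fibres; `z` holds at most once -/
theorem fibres (M N : ℕ) (p : ℕ → ℕ → Prop) (z : ℕ → Prop)
    (hz : ∀ a a', 1 ≤ a → 1 ≤ a' → z a → z a' → a = a') (R : ℝ) (hR : 0 ≤ R)
    (h : ∀ a, 1 ≤ a → a ≤ M → ¬ z a → ({b : ℕ | (1 ≤ b ∧ b ≤ N) ∧ p a b}.ncard : ℝ) ≤ R) :
    ({q : ℕ × ℕ | (1 ≤ q.1 ∧ q.1 ≤ M) ∧ (1 ≤ q.2 ∧ q.2 ≤ N) ∧ p q.1 q.2}.ncard : ℝ) ≤
      M * R + N := by
  classical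
  have h1 : {q : ℕ × ℕ | (1 ≤ q.1 ∧ q.1 ≤ M) ∧ (1 ≤ q.2 ∧ q.2 ≤ N) ∧ p q.1 q.2} =
      ↑((Finset.Icc 1 M ×ˢ Finset.Icc 1 N).filter fun q => p q.1 q.2) := by
    ext q
    simp [and_assoc]
  have h2 : ∀ a, {b : ℕ | (1 ≤ b ∧ b ≤ N) ∧ p a b} = ↑((Finset.Icc 1 N).filter (p a)) := by
    intro a
    ext b
    simp
  rw [h1, Set.ncard_coe_finset, Finset.card_filter, Finset.sum_product]
  push_cast
  have h3 : ∀ a ∈ Finset.Icc 1 M, ∑ b ∈ Finset.Icc 1 N, (if p a b then (1 : ℝ) else 0) ≤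
      R + if z a then (N : ℝ) else 0 := by
    intro a ha
    obtain ⟨ha1, ha2⟩ := Finset.mem_Icc.1 ha
    rw [Finset.sum_boole]
    by_cases hza : z a
    · rw [if_pos hza]
      have h4 : (((Finset.Icc 1 N).filter (p a)).card : ℝ) ≤ N := by
        have := Finset.card_filter_le (Finset.Icc 1 N) (p a)
        rw [Nat.card_Icc, Nat.add_sub_cancel] at this
        exact_mod_cast this
      linarith
    · have h4 := h a ha1 ha2 hza
      rw [h2, Set.ncard_coe_finset] at h4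
      rw [if_neg hza, add_zero]
      exact h4
  refine (Finset.sum_le_sum h3).trans ?_
  rw [Finset.sum_add_distrib, Finset.sum_const, Nat.card_Icc, Nat.add_sub_cancel, nsmul_eq_mul,
    ← Finset.sum_filter, Finset.sum_const, nsmul_eq_mul]
  have h5 : ((Finset.Icc 1 M).filter z).card ≤ 1 := by
    rw [Finset.card_le_one]
    intro a ha a' ha'
    obtain ⟨ha1, ha2⟩ := Finset.mem_filter.1 ha
    obtain ⟨ha1', ha2'⟩ := Finset.mem_filter.1 ha'
    exact hz a a' (Finset.mem_Icc.1 ha1).1 (Finset.mem_Icc.1 ha1').1 ha2 ha2'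
  have h6 : (((Finset.Icc 1 M).filter z).card : ℝ) ≤ 1 := by exact_mod_cast h5
  nlinarith [Nat.cast_nonneg (α := ℝ) N]

theorem log_zero {t : ℂ} {a a' : ℕ} (ha : 1 ≤ a) (ha' : 1 ≤ a')
    (h : t + (Real.log a : ℂ) = 0) (h' : t + (Real.log a' : ℂ) = 0) : a = a' := by
  have h1 : (Real.log a : ℂ) = (Real.log a' : ℂ) := by
    have := h.trans h'.symm
    exact add_left_cancel this
  have h2 : Real.log a = Real.log a' := by exact_mod_cast h1
  have h3 := Real.log_injOn_pos (Set.mem_Ioi.2 (by exact_mod_cast ha))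
    (Set.mem_Ioi.2 (by exact_mod_cast ha')) h2
  exact_mod_cast h3

/-- exchanging the two variables -/
theorem rx_swap {e : ℕ} {x y : ℂ} (P : MvPolynomial (Fin 2) ℂ) (hP : P ≠ 0)
    (he : P.degreeOf 1 ≤ e) (ha : ∀ m, IsAlgebraic ℚ (P.coeff m))
    (h : MvPolynomial.eval ![x, y] P = 0) : RX e y x := by
  have hsw : Function.Injective (Equiv.swap (0 : Fin 2) 1) := (Equiv.swap (0 : Fin 2) 1).injective
  refine ⟨MvPolynomial.rename (Equiv.swap (0 : Fin 2) 1) P, ?_, ?_, ?_, ?_⟩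
  · intro h0
    exact hP (MvPolynomial.rename_injective _ hsw (by rw [h0, map_zero]))
  · have h3 := MvPolynomial.degreeOf_rename_of_injective hsw (p := P) (1 : Fin 2)
    rw [Equiv.swap_apply_right] at h3
    rw [h3]
    exact he
  · intro m
    obtain ⟨Q, rfl⟩ := Pool.Agent.DI.End_lift P ha
    rw [← MvPolynomial.map_rename, MvPolynomial.coeff_map]
    exact mem_algebraicClosure_iff.1 (SetLike.coe_mem _)
  · rw [MvPolynomial.eval_rename, ← h]
    congr 2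
    funext i
    fin_cases i
    · rfl
    · rfl

theorem finite_Icc' (N : ℕ) (p : ℕ → Prop) : {b : ℕ | (1 ≤ b ∧ b ≤ N) ∧ p b}.Finite :=
  (Set.finite_Icc 1 N).subset fun _ hb => hb.1

theorem ncard_le_self (N : ℕ) (p : ℕ → Prop) :
    ({b : ℕ | (1 ≤ b ∧ b ≤ N) ∧ p b}.ncard : ℝ) ≤ N := by
  have h2 := Set.ncard_le_ncard (s := {b : ℕ | (1 ≤ b ∧ b ≤ N) ∧ p b})
    (t := ↑(Finset.Icc 1 N)) (by
      intro q hq
      rw [Finset.mem_coe, Finset.mem_Icc]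
      exact hq.1)
  rw [Set.ncard_coe_finset, Nat.card_Icc, Nat.add_sub_cancel] at h2
  exact_mod_cast h2

/-- the zero of `t + log` -/
theorem add_zero_case (t : ℂ) (N : ℕ) (p q : ℕ → Prop)
    (h : ∀ b, p b → t + (Real.log b : ℂ) = 0 ∨ q b) :
    ({b : ℕ | (1 ≤ b ∧ b ≤ N) ∧ p b}.ncard : ℝ) ≤
      {b : ℕ | (1 ≤ b ∧ b ≤ N) ∧ q b}.ncard + 1 := by
  have h1 : {b : ℕ | (1 ≤ b ∧ b ≤ N) ∧ p b} ⊆ {b : ℕ | (1 ≤ b ∧ b ≤ N) ∧ q b} ∪
      {b : ℕ | (1 ≤ b ∧ b ≤ N) ∧ t + (Real.log b : ℂ) = 0} := by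
    rintro b ⟨hb, hp⟩
    rcases h b hp with h0 | h0
    · exact Or.inr ⟨hb, h0⟩
    · exact Or.inl ⟨hb, h0⟩
  have h2 := (Set.ncard_le_ncard h1 ((finite_Icc' N _).union (finite_Icc' N _))).trans
    (Set.ncard_union_le _ _)
  have h3 : {b : ℕ | (1 ≤ b ∧ b ≤ N) ∧ t + (Real.log b : ℂ) = 0}.ncard ≤ 1 := by
    rw [Set.ncard_le_one (finite_Icc' N _)]
    intro b hb b' hb'
    exact log_zero hb.1.1 hb'.1.1 hb.2 hb'.2
  exact_mod_cast h2.trans (Nat.add_le_add_left h3 _)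

theorem to_gb (C1 : ℝ) (hC1 : 0 ≤ C1) (m X0 : ℕ) : ∃ C : ℕ, ∀ p : ℕ → Prop,
    (∀ N : ℕ, X0 ≤ N → ({b : ℕ | (1 ≤ b ∧ b ≤ N) ∧ p b}.ncard : ℝ) ≤
      N * (C1 * Real.log (Real.log N) ^ m * Real.exp (-Real.log (Real.log N)))) →
    ∀ X : ℕ, 16 ≤ X → ∀ N : ℕ, X ≤ N →
      ({b : ℕ | (1 ≤ b ∧ b ≤ N) ∧ p b}.ncard : ℝ) + 1 ≤ N * gb C X := by
  obtain ⟨C, X1, h01, hC⟩ := gb_exp C1 hC1 m X0
  obtain ⟨D, hD⟩ := gb_small X1
  refine ⟨C + D + 1, fun p hp X hX N hN => ?_⟩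
  have hXN : (X : ℝ) ≤ N := by exact_mod_cast hN
  have hXp : (0 : ℝ) < X := by
    have : (16 : ℝ) ≤ X := by exact_mod_cast hX
    linarith
  have h1 : ({b : ℕ | (1 ≤ b ∧ b ≤ N) ∧ p b}.ncard : ℝ) ≤ N * gb (C + D) X := by
    rcases Nat.lt_or_ge X X1 with h | h
    · have h2 := hD X hX h
      have h3 : (1 : ℝ) ≤ gb (C + D) X := h2.trans (gb_mono hX (Nat.le_add_left _ _))
      exact (ncard_le_self N p).trans (le_mul_of_one_le_right (by linarith) h3)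
    · refine (hp N ((h01.trans h).trans hN)).trans ?_
      refine mul_le_mul_of_nonneg_left ?_ (by linarith)
      exact (hC X hX h N hN).trans (gb_mono hX (Nat.le_add_right _ _))
  have h2 : (1 : ℝ) ≤ N * gb 1 X := by
    have h3 := gb_inv hX 1
    have h4 : (1 : ℝ) ≤ N * ((1 : ℕ) / X) := by
      rw [Nat.cast_one, mul_one_div, le_div_iff₀ hXp, one_mul]
      exact hXN
    exact h4.trans (mul_le_mul_of_nonneg_left h3 (by linarith))
  have h3 := mul_le_mul_of_nonneg_left (gb_add (C := C + D) (D := 1) hX)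
    (show (0 : ℝ) ≤ N by linarith)
  rw [mul_add] at h3
  linarith

/-- one variable -/
theorem one_var (e : ℕ) : ∃ C : ℕ, ∀ x : ℂ, ¬ IsAlgebraic ℚ x → ∀ t : ℂ,
    IsAlgebraic ℚ (Complex.exp t) → ∀ X : ℕ, 16 ≤ X → ∀ N : ℕ, X ≤ N →
      ({b : ℕ | (1 ≤ b ∧ b ≤ N) ∧ RX e x (t + (Real.log b : ℂ))}.ncard : ℝ) ≤ N * gb C X := by
  obtain ⟨C1, m, X0, hC1, h⟩ := Pool.Agent.DI.main e
  obtain ⟨C, hC⟩ := to_gb C1 hC1.le m X0
  refine ⟨C, fun x hx t ht X hX N hN => ?_⟩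
  refine (add_zero_case t N _ (fun b => b ∈ Bd e x t) fun b hb => ?_).trans
    (hC _ (fun N hN => h x hx t ht N hN) X hX N hN)
  by_cases h0 : t + (Real.log b : ℂ) = 0
  · exact Or.inl h0
  · exact Or.inr ⟨h0, hb⟩

/-- counting pairs -/
theorem pairs {C X M N : ℕ} (hX : 16 ≤ X) (hM : X ≤ M) (hN : X ≤ N) (s : ℂ) (p : ℕ → ℕ → Prop)
    (h : ∀ a : ℕ, 1 ≤ a → s + (Real.log a : ℂ) ≠ 0 →
      ({b : ℕ | (1 ≤ b ∧ b ≤ N) ∧ p a b}.ncard : ℝ) ≤ N * gb C X) :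
    ({q : ℕ × ℕ | (1 ≤ q.1 ∧ q.1 ≤ M) ∧ (1 ≤ q.2 ∧ q.2 ≤ N) ∧ p q.1 q.2}.ncard : ℝ) ≤
      gb (C + 1) X * (M * N) := by
  have hXp : (0 : ℝ) < X := by
    have : (16 : ℝ) ≤ X := by exact_mod_cast hX
    linarith
  have hXM : (X : ℝ) ≤ M := by exact_mod_cast hM
  have hXN : (X : ℝ) ≤ N := by exact_mod_cast hN
  have hg := gb_nonneg (C := C) hX
  have h1 := fibres M N p (fun a => s + (Real.log a : ℂ) = 0)
    (fun a a' ha ha' h h' => log_zero ha ha' h h') (N * gb C X)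
    (mul_nonneg (by linarith) hg) fun a ha _ hz => h a ha hz
  have h2 : (N : ℝ) ≤ gb 1 X * (M * N) := by
    have h3 := gb_inv hX 1
    have h4 : (1 : ℝ) ≤ gb 1 X * M := by
      have h5 : (1 : ℝ) ≤ (1 : ℕ) / X * M := by
        rw [Nat.cast_one, one_div_mul_eq_div, le_div_iff₀ hXp, one_mul]
        exact hXM
      exact h5.trans (mul_le_mul_of_nonneg_right h3 (by linarith))
    rw [← mul_assoc]
    exact le_mul_of_one_le_left (by linarith) h4
  have h3 := mul_le_mul_of_nonneg_right (gb_add (C := C) (D := 1) hX)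
    (show (0 : ℝ) ≤ M * N from mul_nonneg (by linarith) (by linarith))
  rw [add_mul] at h3
  have h4 : (M : ℝ) * (N * gb C X) = gb C X * (M * N) := by ring
  linarith

theorem finite_pairs (M N : ℕ) (p : ℕ × ℕ → Prop) :
    {q : ℕ × ℕ | (1 ≤ q.1 ∧ q.1 ≤ M) ∧ (1 ≤ q.2 ∧ q.2 ≤ N) ∧ p q}.Finite :=
  ((Set.finite_Icc 1 M).prod (Set.finite_Icc 1 N)).subset fun _ hq => ⟨hq.1, hq.2.1⟩

theorem ncard_swap (M N : ℕ) (p : ℕ → ℕ → Prop) :
    {q : ℕ × ℕ | (1 ≤ q.1 ∧ q.1 ≤ M) ∧ (1 ≤ q.2 ∧ q.2 ≤ N) ∧ p q.2 q.1}.ncard =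
      {q : ℕ × ℕ | (1 ≤ q.1 ∧ q.1 ≤ N) ∧ (1 ≤ q.2 ∧ q.2 ≤ M) ∧ p q.1 q.2}.ncard := by
  rw [← Set.ncard_image_of_injective _ Prod.swap_injective]
  congr 1
  ext ⟨a, b⟩
  constructor
  · rintro ⟨⟨c, d⟩, ⟨h1, h2, h3⟩, h4⟩
    obtain ⟨rfl, rfl⟩ := Prod.mk.inj h4
    exact ⟨h2, h1, h3⟩
  · rintro ⟨h1, h2, h3⟩
    exact ⟨(b, a), ⟨h2, h1, h3⟩, rfl⟩

/-- powers of both numbers -/
theorem pow_rel {K : Type} [Field K] {M : Type} [Field M] [Algebra K M] {e k n : ℕ} (hn : n ≠ 0)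
    {u y : M} (hy : ¬ IsAlgebraic K y) (R : MvPolynomial (Fin 2) K) (hR : R ≠ 0)
    (he : R.degreeOf 0 ≤ e) (h0 : MvPolynomial.aeval ![u, y ^ n] R = 0) :
    ∃ P : MvPolynomial (Fin 2) K, P ≠ 0 ∧ P.degreeOf 0 ≤ e ∧
      MvPolynomial.aeval ![u ^ k, y] P = 0 := by
  have hyn : ¬ IsAlgebraic K (y ^ n) := fun h => hy (h.of_pow (Nat.pos_of_ne_zero hn))
  let L : Subfield M := (Pool.Agent.DI.psi hy).fieldRange
  have hL : ∀ a : MvPolynomial (Fin 1) K,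
      (MvPolynomial.aeval (R := K) (fun _ : Fin 1 => y ^ n)).toRingHom a ∈ L := by
    intro a
    change MvPolynomial.aeval (fun _ : Fin 1 => y ^ n) a ∈ L
    induction a using MvPolynomial.induction_on with
    | C c =>
      rw [MvPolynomial.aeval_C]
      exact Pool.Agent.DI.psi_const hy c
    | add p q hp hq =>
      rw [map_add]
      exact add_mem hp hq
    | mul_X p i hp =>
      rw [map_mul, MvPolynomial.aeval_X]
      exact mul_mem hp (pow_mem (Pool.Agent.DI.psi_self hy) n)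
  let φ : MvPolynomial (Fin 1) K →+* L :=
    (MvPolynomial.aeval (R := K) (fun _ : Fin 1 => y ^ n)).toRingHom.codRestrict L.toSubring hL
  have hφ : Function.Injective φ := fun a b hab =>
    Pool.Agent.DI.deg_inj hyn (congrArg Subtype.val hab)
  let S : Polynomial L := (MvPolynomial.finSuccEquiv K 1 R).map φ
  have hS0 : S ≠ 0 := by
    rw [Ne, Polynomial.map_eq_zero_iff hφ, map_eq_zero_iff _
      (MvPolynomial.finSuccEquiv K 1).injective]
    exact hR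
  have hSe : S.natDegree ≤ e := by
    refine Polynomial.natDegree_map_le.trans ?_
    rw [MvPolynomial.natDegree_finSuccEquiv]
    exact he
  have hSu : Polynomial.aeval u S = 0 := by
    rw [Polynomial.aeval_def, Polynomial.eval₂_map, ← h0, ← Pool.Agent.DI.deg_ev]
    rfl
  have hint : IsIntegral L u := (isAlgebraic_iff_isIntegral).1 ⟨S, hS0, hSu⟩
  have hfin : FiniteDimensional L (IntermediateField.adjoin L {u}) :=
    IntermediateField.adjoin.finiteDimensional hint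
  have hu : (minpoly L (u ^ k)).natDegree ≤ e := by
    have hmem : u ^ k ∈ IntermediateField.adjoin L {u} :=
      pow_mem (IntermediateField.mem_adjoin_simple_self L u) k
    have h1 := minpoly.natDegree_le (A := L) (⟨u ^ k, hmem⟩ : IntermediateField.adjoin L {u})
    rw [IntermediateField.adjoin.finrank hint] at h1
    rw [← minpoly.algebraMap_eq (algebraMap (IntermediateField.adjoin L {u}) M).injective] at h1
    refine h1.trans (le_trans ?_ hSe)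
    exact Polynomial.natDegree_le_of_dvd (minpoly.dvd L u hSu) hS0
  have hintk : IsIntegral L (u ^ k) := hint.pow k
  obtain ⟨g, hg⟩ := Polynomial.map_surjective (Pool.Agent.DI.psi hy).rangeRestrictField
    (fun ⟨_, a, ha⟩ => ⟨a, Subtype.ext ha⟩) (minpoly L (u ^ k))
  have hg0 : g ≠ 0 := by
    rintro rfl
    rw [Polynomial.map_zero] at hg
    exact minpoly.ne_zero hintk hg.symm
  have hgz : g.eval₂ (Pool.Agent.DI.psi hy) (u ^ k) = 0 := by
    have h1 := minpoly.aeval L (u ^ k)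
    rw [← hg, Polynomial.aeval_def, Polynomial.eval₂_map] at h1
    exact h1
  have hge : g.natDegree ≤ e := by
    have h1 : (g.map (Pool.Agent.DI.psi hy).rangeRestrictField).natDegree = g.natDegree :=
      Polynomial.natDegree_map _
    rw [← h1, hg]
    exact hu
  obtain ⟨P, hP, hP0⟩ := Pool.Agent.DI.exists_irred hy hg0 hgz
  exact ⟨P, hP.ne_zero, (Pool.Agent.DI.degreeOf_le hy hP hP0 hg0 hgz).trans hge, hP0⟩

/-- powers, over the algebraic numbers -/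
theorem rx_pow {e k n : ℕ} (hn : n ≠ 0) {u y : ℂ} (h : RX e u (y ^ n)) : RX e (u ^ k) y := by
  have key : ∀ (P : MvPolynomial (Fin 2) (algebraicClosure ℚ ℂ)), P ≠ 0 → P.degreeOf 0 ≤ e →
      MvPolynomial.aeval ![u ^ k, y] P = 0 → RX e (u ^ k) y := by
    intro P hP he h0
    have hinj : Function.Injective (algebraMap (algebraicClosure ℚ ℂ) ℂ) :=
      FaithfulSMul.algebraMap_injective _ _
    refine ⟨MvPolynomial.map (algebraMap (algebraicClosure ℚ ℂ) ℂ) P, ?_, ?_, fun m => ?_, ?_⟩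
    · intro h1
      exact hP (MvPolynomial.map_injective _ hinj (by rw [h1, map_zero]))
    · refine le_trans ?_ he
      exact MvPolynomial.degreeOf_le_iff.2 fun m hm => by
        have h2 : m ∈ P.support := MvPolynomial.support_map_subset _ _ hm
        exact MvPolynomial.degreeOf_le_iff.1 le_rfl m h2
    · rw [MvPolynomial.coeff_map]
      exact mem_algebraicClosure_iff.1 (SetLike.coe_mem _)
    · rw [MvPolynomial.eval_map, ← MvPolynomial.aeval_def]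
      exact h0
  by_cases hy : IsAlgebraic ℚ y
  · refine key (MvPolynomial.X 1 - MvPolynomial.C ⟨y, mem_algebraicClosure_iff.2 hy⟩) ?_ ?_ ?_
    · intro h1
      have h2 := congrArg (MvPolynomial.eval fun _ =>
        (⟨y, mem_algebraicClosure_iff.2 hy⟩ : algebraicClosure ℚ ℂ) + 1) h1
      rw [map_sub, MvPolynomial.eval_X, MvPolynomial.eval_C, add_sub_cancel_left, map_zero] at h2
      exact one_ne_zero h2
    · refine (MvPolynomial.degreeOf_sub_le _ _ _).trans ?_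
      rw [MvPolynomial.degreeOf_C, MvPolynomial.degreeOf_X, if_neg (by decide)]
      exact Nat.zero_le _
    · rw [map_sub, MvPolynomial.aeval_X, MvPolynomial.aeval_C]
      exact sub_self _
  · obtain ⟨P, hP0, hPe, hPa, hPu⟩ := h
    obtain ⟨R, rfl⟩ := Pool.Agent.DI.End_lift P hPa
    have hinj : Function.Injective (algebraMap (algebraicClosure ℚ ℂ) ℂ) :=
      FaithfulSMul.algebraMap_injective _ _
    have hR0 : R ≠ 0 := by
      rintro rfl
      exact hP0 (map_zero _)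
    have hRe : R.degreeOf 0 ≤ e := by
      refine le_trans ?_ hPe
      exact MvPolynomial.degreeOf_le_iff.2 fun m hm => by
        refine MvPolynomial.degreeOf_le_iff.1 le_rfl m ?_
        rw [MvPolynomial.support_map_of_injective _ hinj]
        exact hm
    have hyK : ¬ IsAlgebraic (algebraicClosure ℚ ℂ) y := by
      intro h1
      have h2 : Algebra.IsAlgebraic ℚ (algebraicClosure ℚ ℂ) := algebraicClosure.isAlgebraic ℚ ℂ
      exact hy (h1.restrictScalars ℚ)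
    rw [MvPolynomial.eval_map, ← MvPolynomial.aeval_def] at hPu
    obtain ⟨P', h1, h2, h3⟩ := pow_rel (k := k) hn hyK R hR0 hRe hPu
    exact key P' h1 h2 h3

/-- all powers of `x` at once -/
theorem one_powers (e : ℕ) : ∃ C : ℕ, ∀ x : ℂ, ¬ IsAlgebraic ℚ x → ∀ t : ℂ,
    IsAlgebraic ℚ (Complex.exp t) → ∀ X : ℕ, 16 ≤ X → ∀ N : ℕ, X ≤ N →
      ({b : ℕ | (1 ≤ b ∧ b ≤ N) ∧ ∃ m n : ℕ, 0 < m ∧ 0 < n ∧
        RX e (x ^ m) ((t + (Real.log b : ℂ)) ^ n)}.ncard : ℝ) ≤ N * gb C X := by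
  classical
  obtain ⟨C, h⟩ := one_var e
  refine ⟨C, fun x hx t ht X hX N hN => ?_⟩
  have hch : ∀ b : ℕ, ∃ m : ℕ, 0 < m ∧ ((∃ m n : ℕ, 0 < m ∧ 0 < n ∧
      RX e (x ^ m) ((t + (Real.log b : ℂ)) ^ n)) → ∃ n : ℕ, 0 < n ∧
        RX e (x ^ m) ((t + (Real.log b : ℂ)) ^ n)) := by
    intro b
    by_cases hb : ∃ m n : ℕ, 0 < m ∧ 0 < n ∧ RX e (x ^ m) ((t + (Real.log b : ℂ)) ^ n)
    · obtain ⟨m, n, hm, hn, hR⟩ := hb
      exact ⟨m, hm, fun _ => ⟨n, hn, hR⟩⟩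
    · exact ⟨1, one_pos, fun h => absurd h hb⟩
  choose m hm hR using hch
  let N₀ : ℕ := ∏ b ∈ Finset.Icc 1 N, m b
  have hN₀ : 0 < N₀ := Finset.prod_pos fun b _ => hm b
  have hx₀ : ¬ IsAlgebraic ℚ (x ^ N₀) := fun h0 => hx (h0.of_pow hN₀)
  refine le_trans ?_ (h (x ^ N₀) hx₀ t ht X hX N hN)
  refine Nat.cast_le.2 (Set.ncard_le_ncard ?_ (finite_Icc' N _))
  rintro b ⟨hb, hex⟩
  refine ⟨hb, ?_⟩
  obtain ⟨n, hn, h1⟩ := hR b hex
  obtain ⟨k, hk⟩ : m b ∣ N₀ := Finset.dvd_prod_of_mem m (Finset.mem_Icc.2 hb)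
  rw [hk, pow_mul]
  exact rx_pow hn.ne' h1

/-- the numbers `u i` are linearly independent over every extension `L` of degree `≤ e` of the
field generated by `y` over the algebraic numbers -/
def Indep (e : ℕ) {N : ℕ} (u : Fin N → ℂ) (y : ℂ) : Prop :=
  ∀ L : IntermediateField (IntermediateField.adjoin (algebraicClosure ℚ ℂ) {y}) ℂ,
    FiniteDimensional (IntermediateField.adjoin (algebraicClosure ℚ ℂ) {y}) L →
      Module.finrank (IntermediateField.adjoin (algebraicClosure ℚ ℂ) {y}) L ≤ e →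
        LinearIndependent L u

theorem rx_of_rt {k e : ℕ} {x : Fin k → ℂ} {y : ℂ} (h : Pool.Agent.DIk.RT e x y) :
    Pool.Agent.DIk.RX e x y := by
  obtain ⟨P, hP0, hPd, hPa, hPe⟩ := h
  refine ⟨P, hP0, fun i => ?_, hPa, hPe⟩
  rw [MvPolynomial.degreeOf_le_iff]
  intro m hm
  exact (Finset.single_le_sum (f := fun i : Fin k => m i.succ) (fun _ _ => Nat.zero_le _)
    (Finset.mem_univ i)).trans (hPd m hm)

theorem exists_rx {N : ℕ} (u : Fin N → ℂ) (hu : LinearIndependent (algebraicClosure ℚ ℂ) u)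
    (e : ℕ) : ∃ (k E : ℕ) (x : Fin k → ℂ), 0 < k ∧ AlgebraicIndependent ℚ x ∧
      ∀ y, ¬ Indep e u y → Pool.Agent.DIk.RX E x y := by
  obtain ⟨k, E, x, hk, hx, h⟩ := Pool.Agent.DIk.lin_ext u hu e
  refine ⟨k, E, x, hk, hx, fun y hy => rx_of_rt (h y ?_)⟩
  by_contra h0
  refine hy fun L h1 h2 => ?_
  by_contra h3
  exact h0 ⟨L, h1, h2, h3⟩

theorem result :
    (∀ (N e : ℕ) (u : Fin N → ℂ), LinearIndependent (algebraicClosure ℚ ℂ) u →
      ∃ C : ℕ, ∀ t : ℂ, IsAlgebraic ℚ (Complex.exp t) → ∀ X : ℕ, 16 ≤ X →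
      ({a : ℕ | (1 ≤ a ∧ a ≤ X) ∧ ¬ Indep e u (t + (Real.log a : ℂ))}.ncard : ℝ) ≤
        C * Real.log (Real.log X) ^ C / Real.log X * X) ∧
    (∀ e : ℕ, ∃ C : ℕ, ∀ s t : ℂ, IsAlgebraic ℚ (Complex.exp s) → IsAlgebraic ℚ (Complex.exp t) →
      ∀ X : ℕ, 16 ≤ X → ∀ M N : ℕ, X ≤ M → X ≤ N →
      ({q : ℕ × ℕ | (1 ≤ q.1 ∧ q.1 ≤ M) ∧ (1 ≤ q.2 ∧ q.2 ≤ N) ∧
        ∃ m n : ℕ, 0 < m ∧ 0 < n ∧
          ∃ P : MvPolynomial (Fin 2) ℂ, P ≠ 0 ∧ (P.degreeOf 0 ≤ e ∨ P.degreeOf 1 ≤ e) ∧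
            (∀ i, IsAlgebraic ℚ (P.coeff i)) ∧
              MvPolynomial.eval ![(s + (Real.log q.1 : ℂ)) ^ m, (t + (Real.log q.2 : ℂ)) ^ n] P =
                0}.ncard : ℝ) ≤
        C * Real.log (Real.log X) ^ C / Real.log X * (M * N)) ∧
    (∀ k e : ℕ, 0 < k → ∃ C : ℕ, ∀ x : Fin k → ℂ, AlgebraicIndependent ℚ x → ∀ t : ℂ,
      IsAlgebraic ℚ (Complex.exp t) → ∀ X : ℕ, 16 ≤ X →
      ({a : ℕ | (1 ≤ a ∧ a ≤ X) ∧
        ∃ P : MvPolynomial (Fin (k + 1)) ℂ, P ≠ 0 ∧ (∀ i : Fin k, P.degreeOf i.succ ≤ e) ∧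
          (∀ i, IsAlgebraic ℚ (P.coeff i)) ∧
            MvPolynomial.eval (Fin.cons (t + (Real.log a : ℂ)) x : Fin (k + 1) → ℂ) P =
              0}.ncard : ℝ) ≤
        C * Real.log (Real.log X) ^ C / Real.log X * X) ∧
    (∀ (N e : ℕ) (u : Fin N → ℂ), LinearIndependent (algebraicClosure ℚ ℂ) u →
      ∃ (n : ℕ) (C c : ℝ), 0 < n ∧ 0 < c ∧ ∀ (F : Subfield ℂ) (M : ℕ) (t : ℂ)
        (l : Fin M → ℂ), 0 < M → Pool.Agent.DIk.IsLogs F (Fin.cons t l : Fin (M + 1) → ℂ) →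
        LinearIndependent F l →
        ({A : Finset (Fin M) | A.card = n ∧ ¬ Indep e u (t + ∑ i ∈ A, l i)}.ncard : ℝ) ≤
          C * (M : ℝ) ^ ((n : ℝ) - c)) ∧
    (∀ k e : ℕ, 0 < k → ∃ (n : ℕ) (C c : ℝ), 0 < n ∧ 0 < c ∧ ∀ (F : Subfield ℂ) (M : ℕ) (t : ℂ)
      (l : Fin M → ℂ), 0 < M → Pool.Agent.DIk.IsLogs F (Fin.cons t l : Fin (M + 1) → ℂ) →
      LinearIndependent F l → ∀ x : Fin k → ℂ, AlgebraicIndependent ℚ x →
      ({A : Finset (Fin M) | A.card = n ∧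
        ∃ P : MvPolynomial (Fin (k + 1)) ℂ, P ≠ 0 ∧ (∀ i : Fin k, P.degreeOf i.succ ≤ e) ∧
          (∀ i, IsAlgebraic ℚ (P.coeff i)) ∧
            MvPolynomial.eval (Fin.cons (t + ∑ i ∈ A, l i) x : Fin (k + 1) → ℂ) P =
              0}.ncard : ℝ) ≤
        C * (M : ℝ) ^ ((n : ℝ) - c)) := by
  refine ⟨fun N e u hu => ?_, fun e => ?_, fun k e hk => ?_, fun N e u hu => ?_, fun k e hk => ?_⟩
  · obtain ⟨k, E, x, hk, hx, hux⟩ := exists_rx u hu e
    obtain ⟨C1, m, X0, hC1, h⟩ := Pool.Agent.DIk.main k E hk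
    obtain ⟨C, hC⟩ := to_gb C1 hC1.le m X0
    refine ⟨C, fun t ht X hX => ?_⟩
    have h1 := hC (fun b => b ∈ Pool.Agent.DIk.Bd E x t) (fun N hN => h x hx t ht N hN) X hX X
      le_rfl
    have h2 := add_zero_case t X (fun b => ¬ Indep e u (t + (Real.log b : ℂ)))
      (fun b => b ∈ Pool.Agent.DIk.Bd E x t) fun b hb => by
        by_cases h0 : t + (Real.log b : ℂ) = 0
        · exact Or.inl h0
        · exact Or.inr ⟨h0, hux _ hb⟩
    have h3 := h2.trans h1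
    rw [mul_comm] at h3
    exact h3
  · obtain ⟨C, hC⟩ := one_powers e
    refine ⟨(C + 1) + (C + 1), fun s t hs ht X hX M N hM hN => ?_⟩
    have hA := pairs hX hM hN s (fun a b => ∃ m n : ℕ, 0 < m ∧ 0 < n ∧
        RX e ((s + (Real.log a : ℂ)) ^ m) ((t + (Real.log b : ℂ)) ^ n))
      fun a ha hz => hC _ (Pool.Agent.QDen.transcendental_lam hs ha hz) t ht X hX N hN
    have hB := pairs hX hN hM t (fun b a => ∃ m n : ℕ, 0 < m ∧ 0 < n ∧
        RX e ((t + (Real.log b : ℂ)) ^ m) ((s + (Real.log a : ℂ)) ^ n))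
      fun b hb hz => hC _ (Pool.Agent.QDen.transcendental_lam ht hb hz) s hs X hX M hM
    rw [← ncard_swap M N fun b a => ∃ m n : ℕ, 0 < m ∧ 0 < n ∧
        RX e ((t + (Real.log b : ℂ)) ^ m) ((s + (Real.log a : ℂ)) ^ n)] at hB
    have hsub : {q : ℕ × ℕ | (1 ≤ q.1 ∧ q.1 ≤ M) ∧ (1 ≤ q.2 ∧ q.2 ≤ N) ∧
        ∃ m n : ℕ, 0 < m ∧ 0 < n ∧
          ∃ P : MvPolynomial (Fin 2) ℂ, P ≠ 0 ∧ (P.degreeOf 0 ≤ e ∨ P.degreeOf 1 ≤ e) ∧
            (∀ i, IsAlgebraic ℚ (P.coeff i)) ∧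
              MvPolynomial.eval ![(s + (Real.log q.1 : ℂ)) ^ m, (t + (Real.log q.2 : ℂ)) ^ n] P =
                0} ⊆
        {q : ℕ × ℕ | (1 ≤ q.1 ∧ q.1 ≤ M) ∧ (1 ≤ q.2 ∧ q.2 ≤ N) ∧ ∃ m n : ℕ, 0 < m ∧ 0 < n ∧
          RX e ((s + (Real.log q.1 : ℂ)) ^ m) ((t + (Real.log q.2 : ℂ)) ^ n)} ∪
        {q : ℕ × ℕ | (1 ≤ q.1 ∧ q.1 ≤ M) ∧ (1 ≤ q.2 ∧ q.2 ≤ N) ∧ ∃ m n : ℕ, 0 < m ∧ 0 < n ∧
          RX e ((t + (Real.log q.2 : ℂ)) ^ m) ((s + (Real.log q.1 : ℂ)) ^ n)} := by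
      rintro ⟨a, b⟩ ⟨ha, hb, m, n, hm, hn, P, hP0, hPd, hPa, hPe⟩
      rcases hPd with hPd | hPd
      · exact Or.inl ⟨ha, hb, m, n, hm, hn, P, hP0, hPd, hPa, hPe⟩
      · exact Or.inr ⟨ha, hb, n, m, hn, hm, rx_swap P hP0 hPd hPa hPe⟩
    have h2 := (Set.ncard_le_ncard hsub ((finite_pairs M N _).union (finite_pairs M N _))).trans
      (Set.ncard_union_le _ _)
    refine (Nat.cast_le.2 h2).trans ?_
    rw [Nat.cast_add]
    have hMN : (0 : ℝ) ≤ M * N := by positivity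
    have h3 := mul_le_mul_of_nonneg_right (gb_add (C := C + 1) (D := C + 1) hX) hMN
    rw [add_mul] at h3
    rw [mul_comm (N : ℝ) M] at hB
    exact (add_le_add hA hB).trans h3
  · obtain ⟨C1, m, X0, hC1, h⟩ := Pool.Agent.DIk.main k e hk
    obtain ⟨C, hC⟩ := to_gb C1 hC1.le m X0
    refine ⟨C, fun x hx t ht X hX => ?_⟩
    have h1 := hC (fun b => b ∈ Pool.Agent.DIk.Bd e x t) (fun N hN => h x hx t ht N hN) X hX X
      le_rfl
    have h2 := add_zero_case t X (fun b => Pool.Agent.DIk.RX e x (t + (Real.log b : ℂ)))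
      (fun b => b ∈ Pool.Agent.DIk.Bd e x t) fun b hb => by
        by_cases h0 : t + (Real.log b : ℂ) = 0
        · exact Or.inl h0
        · exact Or.inr ⟨h0, hb⟩
    have h3 := h2.trans h1
    rw [mul_comm] at h3
    exact h3
  · obtain ⟨k, E, x, hk, hx, hux⟩ := exists_rx u hu e
    obtain ⟨n, C, c, hn, -, hc, -, h⟩ := Pool.Agent.DIk.subsetsL k E hk
    refine ⟨n, C, c, hn, hc, fun F M t l hM hl hi => ?_⟩
    refine le_trans (Nat.cast_le.2 (Set.ncard_le_ncard ?_ (Set.toFinite _)))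
      (h F M t l hM hl hi x hx)
    rintro A ⟨hA, hAu⟩
    exact ⟨hA, hux _ hAu⟩
  · obtain ⟨n, C, c, hn, -, hc, -, h⟩ := Pool.Agent.DIk.subsetsL k e hk
    exact ⟨n, C, c, hn, hc, fun F M t l hM hl hi x hx => h F M t l hM hl hi x hx⟩

end Pool.Agent.Results.MP_c9768e_nt.UnboundedDegree
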