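import Pool.Agent.DIk.StrB
import Pool.Agent.DIk.LinE
import Pool.Agent.QNH.FreeH
import Pool.Agent.QR.MainE
import Pool.Agent.BKR.Baker

/-!
# The logarithms over which given numbers become linearly dependent

Let `u 1, ..., u N` be ANY complex numbers which are linearly independent over the algebraic numbers.
They are linearly independent over every extension of degree at most `e` of the field generated by
`z` over the algebraic numbers (`Indep e u z`)

* for all `z` in a finite-dimensional space over the algebraic numbers outside finitely many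
  subspaces of dimension at most `D`, where `D` depends only on `u` and `e`,
* and likewise in the spaces `F + F t₁ + ⋯ + F t_r` over the field `F = ℚ`, resp. over the field of
  multiplications of a lattice, where the `t_i` are logarithms, resp. elliptic logarithms (`IsLogs`),
* and on the curves `v₁ + β v₂ + ⋯ + β ^ (D - 1) v_D` for all but finitely many algebraic `β`.

Let `x₁, …, x_k` be algebraically independent numbers (for `k = 1`: any transcendental number).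
For a number `z` we consider the relations `P (x₁, …, x_k, z) = 0` with algebraic coefficients, of
total degree at most `e` in the first `k` variables, and of any degree in the last one (`Rel`).
For `k = 1` and transcendental `z` there is one if and only if `x₁` is algebraic of degree at most
`e` over the field generated by `z` over the algebraic numbers. The same three statements hold with
`D = binom(k + e, k)`, and the `z` in question form exactly a finite union of subspaces.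
-/

namespace Pool.Agent.Results.MP_c9768e_nt.UnboundedStructure

open Module Submodule

/-- `F = ℚ` and all `exp (t i)` are algebraic; or, for a lattice `Ω = ℤ ω₁ + ℤ ω₂` with algebraic
invariants `g₂, g₃`, `F` is the field of the `c` with `c Ω ⊂ ℚ Ω`, and each `t i` is in `Ω` or
`℘ (t i)` is algebraic. -/
def IsLogs (F : Subfield ℂ) {r : ℕ} (t : Fin r → ℂ) : Prop :=
  ((∀ c : ℂ, c ∈ F ↔ ∃ q : ℚ, c = q) ∧ ∀ i, IsAlgebraic ℚ (Complex.exp (t i))) ∨
    ∃ ω₁ ω₂ : ℂ, (ω₂ / ω₁).im ≠ 0 ∧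
      IsAlgebraic ℚ (60 * ∑' q : ℤ × ℤ,
        if q = 0 then (0 : ℂ) else 1 / ((q.1 : ℂ) * ω₁ + (q.2 : ℂ) * ω₂) ^ 4) ∧
      IsAlgebraic ℚ (140 * ∑' q : ℤ × ℤ,
        if q = 0 then (0 : ℂ) else 1 / ((q.1 : ℂ) * ω₁ + (q.2 : ℂ) * ω₂) ^ 6) ∧
      (∀ c : ℂ, c ∈ F ↔ ∃ a b a' b' : ℚ,
        c * ω₁ = (a : ℂ) * ω₁ + (b : ℂ) * ω₂ ∧ c * ω₂ = (a' : ℂ) * ω₁ + (b' : ℂ) * ω₂) ∧
      ∀ i, (∃ a b : ℤ, t i = (a : ℂ) * ω₁ + (b : ℂ) * ω₂) ∨
        IsAlgebraic ℚ (1 / t i ^ 2 + ∑' q : ℤ × ℤ,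
          if q = 0 then (0 : ℂ) else
            (1 / (t i - ((q.1 : ℂ) * ω₁ + (q.2 : ℂ) * ω₂)) ^ 2
              - 1 / ((q.1 : ℂ) * ω₁ + (q.2 : ℂ) * ω₂) ^ 2))

/-- The space `F + F t₁ + ⋯ + F t_r`. -/
noncomputable def W (F : Subfield ℂ) {r : ℕ} (t : Fin r → ℂ) : Submodule F ℂ :=
  span F (insert 1 (Set.range t))

/-- There is a nonzero polynomial `P` in `k + 1` variables with algebraic coefficients, of total
degree at most `e` in the last `k` variables (and of any degree in the first one, which is the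
place of `z`), with `P (z, x₁, …, x_k) = 0`. -/
def Rel (e : ℕ) {k : ℕ} (x : Fin k → ℂ) (z : ℂ) : Prop :=
  ∃ P : MvPolynomial (Fin (k + 1)) ℂ, P ≠ 0 ∧ (∀ m ∈ P.support, ∑ i : Fin k, m i.succ ≤ e) ∧
    (∀ m, IsAlgebraic ℚ (P.coeff m)) ∧
      MvPolynomial.eval (Fin.cons z x : Fin (k + 1) → ℂ) P = 0

/-- the numbers `u i` are linearly independent over every extension `L` of degree `≤ e` of the
field generated by `z` over the algebraic numbers -/
def Indep (e : ℕ) {N : ℕ} (u : Fin N → ℂ) (z : ℂ) : Prop :=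
  ∀ L : IntermediateField (IntermediateField.adjoin (algebraicClosure ℚ ℂ) {z}) ℂ,
    FiniteDimensional (IntermediateField.adjoin (algebraicClosure ℚ ℂ) {z}) L →
      Module.finrank (IntermediateField.adjoin (algebraicClosure ℚ ℂ) {z}) L ≤ e →
        LinearIndependent L u

/-- `S` is the union of finitely many subspaces of `V` of dimension at most `D` -/
def IsUnion (F : Subfield ℂ) (V : Submodule F ℂ) (D : ℕ) (S : Set ℂ) : Prop :=
  ∃ (n : ℕ) (U : Fin n → Submodule F ℂ),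
    (∀ i, U i ≤ V ∧ finrank F (U i) ≤ D) ∧ S = ⋃ i, (U i : Set ℂ)

/-- only finitely many algebraic `β` have the property `p` at
`(v₁ + β v₂ + ⋯ + β ^ (D - 1) v_D) / v₀` -/
def FinCurve (p : ℂ → Prop) {D : ℕ} (v : Fin (D + 1) → ℂ) : Prop :=
  {β : ℂ | IsAlgebraic ℚ β ∧ p ((∑ i : Fin D, β ^ (i : ℕ) * v i.succ) / v 0)}.Finite

private theorem facts {F : Subfield ℂ} {r : ℕ} {t : Fin r → ℂ} (h : IsLogs F t) :
    (∀ c ∈ F, IsAlgebraic ℚ c) ∧
      Pool.Agent.QNH.Free0 (algebraicClosure ℚ ℂ) (W F t) := by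
  have key : (∀ c ∈ F, IsAlgebraic ℚ c) ∧
      Pool.Agent.QR.Free (algebraicClosure ℚ ℂ) (span F (Set.range t)) := by
    rcases h with ⟨hF, he⟩ | ⟨ω₁, ω₂, him, hg2, hg3, hF, he⟩
    · exact ⟨fun c hc => by
        obtain ⟨q, rfl⟩ := (hF c).1 hc
        exact isAlgebraic_ratCast ℚ q,
        Pool.Agent.QR.free_logF (fun _ _ t ht he b b0 hb hb0 h =>
          Pool.Agent.BKR.baker t ht he b b0 hb hb0 h) F hF he⟩
    · obtain ⟨L, rfl, rfl⟩ := Pool.Agent.ZCM.exists_periodPair ω₁ ω₂ him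
      have hg2' : IsAlgebraic ℚ L.g₂ := by rw [Pool.Agent.ZCM.g₂_eq_tsum]; exact hg2
      have hg3' : IsAlgebraic ℚ L.g₃ := by rw [Pool.Agent.ZCM.g₃_eq_tsum]; exact hg3
      have hF' : ∀ c, c ∈ F ↔ c ∈ Pool.Agent.EBM.EndF L := fun c =>
        (hF c).trans (Pool.Agent.QR.endF_iff L c).symm
      have hp : ∀ i, t i ∈ Pool.Agent.EBM.ELog L := fun i => by
        rcases he i with ⟨a, b, hab⟩ | h
        · exact Or.inl (PeriodPair.mem_lattice.2 ⟨a, b, hab.symm⟩)
        · exact Or.inr (by rw [Pool.Agent.CHU.P_eq_tsum]; exact h)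
      exact ⟨fun c hc => Pool.Agent.EBM.endF_alg L ((hF' c).1 hc),
        Pool.Agent.QR.free_ell L hg2' hg3' F hF' hp⟩
  refine ⟨key.1, ?_⟩
  have hs : Pool.Agent.QR.Sub F (algebraicClosure ℚ ℂ) ℂ := fun c =>
    ⟨⟨c, mem_algebraicClosure_iff.2 (key.1 c c.2)⟩, rfl⟩
  have h1 := Pool.Agent.QNH.free0_of_free hs key.2
  have h2 : W F t = span F {(1 : ℂ)} ⊔ span F (Set.range t) := by
    rw [W, Set.insert_eq, span_union]
  rw [h2]
  exact h1

private theorem finW (F : Subfield ℂ) {r : ℕ} (t : Fin r → ℂ) : FiniteDimensional F (W F t) :=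
  FiniteDimensional.span_of_finite F ((Set.finite_range t).insert 1)

private theorem structure_ (e k : ℕ) (hk : 0 < k) (x : Fin k → ℂ) (hx : AlgebraicIndependent ℚ x)
    (y₀ : ℂ) (hy₀ : y₀ ≠ 0) :
    (∀ K : Subfield ℂ, (∀ c : ℂ, c ∈ K ↔ IsAlgebraic ℚ c) →
      ∀ V : Submodule K ℂ, FiniteDimensional K V →
        IsUnion K V ((k + e).choose k) {y : ℂ | y ∈ V ∧ Rel e x (y / y₀)}) ∧
    ∀ (F : Subfield ℂ) (r : ℕ) (t : Fin r → ℂ), IsLogs F t →
      IsUnion F (W F t) ((k + e).choose k) {y : ℂ | y ∈ W F t ∧ Rel e x (y / y₀)} ∧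
      ∀ v : Fin ((k + e).choose k + 1) → ℂ, (∀ i, v i ∈ W F t) → LinearIndependent F v →
        FinCurve (Rel e x) v := by
  refine ⟨fun K hK V hV => ?_, fun F r t ht => ?_⟩
  · exact Pool.Agent.DIk.struct_div K (fun c hc => (hK c).1 hc) e hk x hx V
      (Pool.Agent.DI.free0_all K hK V) y₀ hy₀
  · obtain ⟨hF, hW⟩ := facts ht
    have hfin := finW F t
    refine ⟨Pool.Agent.DIk.struct_div F hF e hk x hx (W F t) hW y₀ hy₀, fun v hv hi => ?_⟩
    refine Pool.Agent.DIk.curve e hk x hx v ?_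
    rw [Fintype.linearIndependent_iff]
    intro g hg
    refine hW _ v hv hi g ?_
    rw [← hg]
    exact Finset.sum_congr rfl fun i _ => (Algebra.smul_def _ _).symm

theorem result :
    (∀ (N e : ℕ) (u : Fin N → ℂ), LinearIndependent (algebraicClosure ℚ ℂ) u → ∃ D : ℕ,
      (∀ K : Subfield ℂ, (∀ c : ℂ, c ∈ K ↔ IsAlgebraic ℚ c) →
        ∀ V : Submodule K ℂ, FiniteDimensional K V → ∀ y₀ : ℂ, y₀ ≠ 0 →
          ∃ T, IsUnion K V D T ∧ {y : ℂ | y ∈ V ∧ ¬ Indep e u (y / y₀)} ⊆ T) ∧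
      ∀ (F : Subfield ℂ) (r : ℕ) (t : Fin r → ℂ), IsLogs F t →
        (∀ y₀ : ℂ, y₀ ≠ 0 →
          ∃ T, IsUnion F (W F t) D T ∧ {y : ℂ | y ∈ W F t ∧ ¬ Indep e u (y / y₀)} ⊆ T) ∧
        ∀ v : Fin (D + 1) → ℂ, (∀ i, v i ∈ W F t) → LinearIndependent F v →
          FinCurve (fun z => ¬ Indep e u z) v) ∧
    ∀ (e k : ℕ), 0 < k → ∀ x : Fin k → ℂ, AlgebraicIndependent ℚ x → ∀ y₀ : ℂ, y₀ ≠ 0 →
      (∀ K : Subfield ℂ, (∀ c : ℂ, c ∈ K ↔ IsAlgebraic ℚ c) →
        ∀ V : Submodule K ℂ, FiniteDimensional K V →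
          IsUnion K V ((k + e).choose k) {y : ℂ | y ∈ V ∧ Rel e x (y / y₀)}) ∧
      ∀ (F : Subfield ℂ) (r : ℕ) (t : Fin r → ℂ), IsLogs F t →
        IsUnion F (W F t) ((k + e).choose k) {y : ℂ | y ∈ W F t ∧ Rel e x (y / y₀)} ∧
        ∀ v : Fin ((k + e).choose k + 1) → ℂ, (∀ i, v i ∈ W F t) → LinearIndependent F v →
          FinCurve (Rel e x) v := by
  refine ⟨fun N e u hu => ?_, fun e k hk x hx y₀ hy₀ => structure_ e k hk x hx y₀ hy₀⟩
  obtain ⟨k, E, x, hk, hx, h⟩ := Pool.Agent.DIk.lin_ext u hu e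
  have key : ∀ z : ℂ, ¬ Indep e u z → Rel E x z := by
    intro z hz
    refine h z ?_
    by_contra h0
    refine hz fun L h1 h2 => ?_
    by_contra h3
    exact h0 ⟨L, h1, h2, h3⟩
  refine ⟨(k + E).choose k, fun K hK V hV y₀ hy₀ => ?_, fun F r t ht => ⟨fun y₀ hy₀ => ?_,
    fun v hv hi => ?_⟩⟩
  · exact ⟨_, (structure_ E k hk x hx y₀ hy₀).1 K hK V hV, fun y hy => ⟨hy.1, key _ hy.2⟩⟩
  · exact ⟨_, ((structure_ E k hk x hx y₀ hy₀).2 F r t ht).1, fun y hy => ⟨hy.1, key _ hy.2⟩⟩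
  · exact (((structure_ E k hk x hx 1 one_ne_zero).2 F r t ht).2 v hv hi).subset
      fun β hβ => ⟨hβ.1, key _ hβ.2⟩

end Pool.Agent.Results.MP_c9768e_nt.UnboundedStructure
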